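import Pool.Agent.U41.OD.Stm3

/-! Project OD (helper41), package EX3 (helper535). -/

set_option autoImplicit false

open MvPolynomial

namespace Pool.Agent.U41.OD

namespace EX3Aux

theorem core {A : Type} [CommRing A] [IsDomain A] (n d : ℕ) (hd : 3 ≤ d) (y : ℕ → A) (β : A)
    (h0 : y 0 = 0) (c1 : ((d - 1 : ℕ) : A) ≠ 0) (c2 : (d : A) * β ≠ 0)
    (R1 : ∀ i, i < n → y i ^ (d - 1) + ((d - 1 : ℕ) : A) * y (i + 1) ^ (d - 2) * y (i + 2) = 0)
    (R2 : y n ^ (d - 1) + d * β * y (n + 1) ^ (d - 1) = 0) : ∀ i ≤ n + 1, y i = 0 := by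
  have e1 : d - 1 ≠ 0 := by omega
  have e2 : d - 2 ≠ 0 := by omega
  have key : ∀ i ≤ n, y i = 0 := by
    intro i
    induction i with
    | zero => exact fun _ => h0
    | succ i ih =>
      intro hi
      have h1 := R1 i (by omega)
      rw [ih (by omega), zero_pow e1, zero_add] at h1
      rcases mul_eq_zero.1 h1 with h2 | h2
      · rcases mul_eq_zero.1 h2 with h3 | h3
        · exact absurd h3 c1
        · exact eq_zero_of_pow_eq_zero h3
      · by_cases hn : i + 1 < n
        · have h3 := R1 (i + 1) hn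
          rw [h2, zero_pow e2, mul_zero, zero_mul, add_zero] at h3
          exact eq_zero_of_pow_eq_zero h3
        · have hn' : i + 1 = n := by omega
          subst hn'
          rw [h2, zero_pow e1, mul_zero, add_zero] at R2
          exact eq_zero_of_pow_eq_zero R2
  intro i hi
  by_cases hin : i ≤ n
  · exact key i hin
  · have hi' : i = n + 1 := by omega
    subst hi'
    rw [key n le_rfl, zero_pow e1, zero_add] at R2
    exact eq_zero_of_pow_eq_zero ((mul_eq_zero.1 R2).resolve_left c2)

theorem pderiv_chain {K : Type} [Field K] (n d : ℕ) (b : K) (hd : 3 ≤ d) (k : Fin (n + 1)) :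
    pderiv k.succ (chainF n d b) = X k.castSucc ^ (d - 1) +
      ∑ i : Fin (n + 1), (if i.castSucc = k.succ then
        ((d - 1 : ℕ) : MvPolynomial (Fin (n + 2)) K) * X i.castSucc ^ (d - 2) * X i.succ else 0) +
      (if Fin.last (n + 1) = k.succ then
        ((d : ℕ) : MvPolynomial (Fin (n + 2)) K) * C b * X (Fin.last (n + 1)) ^ (d - 1) else 0) := by
  classical
  unfold chainF
  have hX : ∀ a c : Fin (n + 2), pderiv c (X a : MvPolynomial (Fin (n + 2)) K) =
      if a = c then 1 else 0 := by
    intro a c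
    rw [pderiv_X, Pi.single_apply]
  rw [map_add, map_sum]
  have h1 : ∀ i : Fin (n + 1), pderiv k.succ (X i.castSucc ^ (d - 1) * X i.succ :
      MvPolynomial (Fin (n + 2)) K) = (if i = k then X i.castSucc ^ (d - 1) else 0) +
      (if i.castSucc = k.succ then
        ((d - 1 : ℕ) : MvPolynomial (Fin (n + 2)) K) * X i.castSucc ^ (d - 2) * X i.succ else 0) := by
    intro i
    rw [Derivation.leibniz, Derivation.leibniz_pow, hX, hX]
    have h2 : (i.succ = k.succ) = (i = k) := propext Fin.succ_inj
    simp only [h2, smul_eq_mul, nsmul_eq_mul]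
    have h3 : d - 1 - 1 = d - 2 := by omega
    rw [h3]
    split_ifs <;> ring
  rw [Finset.sum_congr rfl fun i _ => h1 i, Finset.sum_add_distrib, Finset.sum_ite_eq' Finset.univ k,
    if_pos (Finset.mem_univ k)]
  congr 1
  rw [Derivation.leibniz, Derivation.leibniz_pow, hX, pderiv_C]
  simp only [smul_eq_mul, nsmul_eq_mul]
  split_ifs <;> ring

end EX3Aux

open EX3Aux in
theorem EX3_ok : S_EX3 := by
  intro K _ _ n d b hd hb i hi
  classical
  rw [Ideal.radical_eq_sInf, Ideal.mem_sInf]
  rintro Q ⟨hQ, hQp⟩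
  have hX0 : (X 0 : MvPolynomial (Fin (n + 2)) K) ∈ Q :=
    hQ (Ideal.subset_span (Set.mem_insert _ _))
  have hD : ∀ k : Fin (n + 1), pderiv k.succ (chainF n d b) ∈ Q := fun k =>
    hQ (Ideal.subset_span (Set.mem_insert_of_mem _ (Set.mem_insert_of_mem _
      ⟨⟨k.succ, Fin.succ_ne_zero k⟩, rfl⟩)))
  have := hQp
  let φ := Ideal.Quotient.mk Q
  have hφ : ∀ p, φ p = 0 ↔ p ∈ Q := fun p => Ideal.Quotient.eq_zero_iff_mem
  have hC : ∀ c : K, c ≠ 0 → φ (C c) ≠ 0 := by
    intro c hc h
    rw [hφ] at h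
    apply hQp.ne_top
    exact Ideal.eq_top_of_isUnit_mem Q h ((isUnit_iff_ne_zero.2 hc).map C)
  let y : ℕ → MvPolynomial (Fin (n + 2)) K ⧸ Q := fun i =>
    if h : i < n + 2 then φ (X ⟨i, h⟩) else 0
  have hy : ∀ (i : ℕ) (h : i < n + 2), y i = φ (X ⟨i, h⟩) := fun i h => dif_pos h
  have hnat : ∀ m : ℕ, m ≠ 0 → ((m : ℕ) : MvPolynomial (Fin (n + 2)) K ⧸ Q) ≠ 0 := by
    intro m hm
    have h1 := hC (m : K) (Nat.cast_ne_zero.2 hm)
    have h2 : φ (C (m : K)) = ((m : ℕ) : MvPolynomial (Fin (n + 2)) K ⧸ Q) := by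
      rw [map_natCast, map_natCast]
    rwa [h2] at h1
  have hmain := core n d hd y (φ (C b)) (by
      rw [hy 0 (by omega), hφ]
      exact hX0) (hnat _ (by omega)) (mul_ne_zero (hnat _ (by omega)) (hC b hb)) (by
      intro i hin
      have h1 := (hφ _).2 (hD ⟨i, by omega⟩)
      rw [pderiv_chain n d b hd, map_add, map_add, map_sum,
        Finset.sum_eq_single (⟨i + 1, by omega⟩ : Fin (n + 1))] at h1
      · rw [if_pos (by rw [Fin.ext_iff]; simp), if_neg (by rw [Fin.ext_iff]; simp; omega), map_zero,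
          add_zero, map_mul, map_mul, map_pow, map_pow, map_natCast] at h1
        rw [hy i (by omega), hy (i + 1) (by omega), hy (i + 2) (by omega)]
        exact h1
      · intro j _ hj
        rw [if_neg, map_zero]
        intro h
        apply hj
        rw [Fin.ext_iff] at h ⊢
        simpa using h
      · intro h
        exact absurd (Finset.mem_univ _) h) (by
      have h1 := (hφ _).2 (hD (Fin.last n))
      rw [pderiv_chain n d b hd, map_add, map_add, map_sum, Finset.sum_eq_zero] at h1
      · rw [if_pos (by rw [Fin.ext_iff]; simp), add_zero, map_mul, map_mul, map_pow, map_pow,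
          map_natCast] at h1
        rw [hy n (by omega), hy (n + 1) (by omega)]
        exact h1
      · intro j _
        rw [if_neg, map_zero]
        intro h
        rw [Fin.ext_iff] at h
        simp at h
        omega)
  have h1 := hmain i (by omega)
  rw [hy i (by omega), hφ] at h1
  exact h1

end Pool.Agent.U41.OD
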